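import Pool.Agent.Helper31.URE.Run
import Pool.Agent.Helper81.URE.Code
import Pool.Agent.Helper53.UR.Reg

/-!
# The reduction of nondeterministic linear space to the universality of regular expressions
-/

namespace Pool.Agent.Helper31.URE

open Pool.Agent.Helper81.URE

theorem histIff : HistIff := fun hR hn => hist_iff hR hn

/-- **The reduction.** -/
theorem redNtm : RedNtm := redNtm_of histIff

theorem redOK : Pool.Agent.Helper53.UR.RedOK := by
  intro L hL
  obtain ⟨f, b, D, -, hb, hf, hloc, -⟩ := red_uspace redNtm hL
  exact ⟨f, hloc, fun w => (hb w).1, hf⟩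

end Pool.Agent.Helper31.URE
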